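import Pool.Agent.Results.MP_f55379_nt.PowerConsequences

set_option autoImplicit false

/-!
# The two exceptional cases

The starting result `ThreeTranscendental` shows that at least three of the five numbers
`π + e`, `π e`, `π ^ e`, `e ^ e`, `π ^ π` are transcendental unless the algebraic ones are exactly
`π ^ e`, `e ^ e`, `π ^ π` or exactly `π + e`, `π ^ e`, `π ^ π`.  Here further numbers are shown to be
transcendental in these two cases.  The proofs use the strong six exponentials theorem of D. Roy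
and Baker's theorem, both proved in the starting library.
-/

namespace Pool.Agent.Results.MP_a49cf6_nt.ExceptionalCases

open Pool.Agent.H462R2.PiE Pool.Agent.H301R2.SSE Pool.Agent.H340R2
open Pool.Agent.Results.MP_f55379_nt.ProductConsequences
open Pool.Agent.Results.MP_f55379_nt.PowerConsequences

/-- `log π` is transcendental if `π ^ (g π)` is algebraic, `g` real algebraic, nonzero -/
theorem LL_tr {g : ℝ} (hg : IsAlgebraic ℚ g) (hg0 : g ≠ 0)
    (hPp : IsAlgebraic ℚ (Complex.exp ((g : ℂ) * (pp * LL)))) : Transcendental ℚ LL := by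
  intro h
  have h1 : IsAlgebraic ℚ (Complex.exp ((-(Complex.I) * (g * LL)) * (pp * Complex.I))) := by
    have e : (-(Complex.I) * (g * LL)) * (pp * Complex.I) = g * (pp * LL) := by
      linear_combination (-(g * (pp * LL))) * Complex.I_mul_I
    rw [e]
    exact hPp
  obtain ⟨s, hs⟩ := gs ppI_ne exp_ppI (algI.neg.mul ((alg_ofReal hg).mul h)) h1
  have h2 : ((-(g * Real.log Real.pi) : ℝ) : ℂ) * Complex.I = s := by
    rw [← hs, Complex.ofReal_neg, Complex.ofReal_mul]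
    ring
  have h3 := (imag_rat h2).1
  exact mul_ne_zero hg0 logpi_pos.ne' (neg_eq_zero.1 h3)

section one
variable {d : ℝ} (hd : IsAlgebraic ℚ d) (hd0 : d ≠ 0)
  (hE : IsAlgebraic ℚ (Complex.exp ((d : ℂ) * ee)))
include hd hd0 hE

theorem ee_mem : ee ∈ Lt := mem_of_exp (alg_ofReal hd) (Complex.ofReal_ne_zero.2 hd0) hE

/-- `1`, `e`, `π` are independent over the algebraic numbers if `e ^ (d e)` is algebraic -/
theorem ind3 {a b c : ℂ} (ha : IsAlgebraic ℚ a) (hb : IsAlgebraic ℚ b) (hc : IsAlgebraic ℚ c)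
    (h : a + b * ee + c * pp = 0) : a = 0 ∧ b = 0 ∧ c = 0 := by
  have hdC : (d : ℂ) ≠ 0 := Complex.ofReal_ne_zero.2 hd0
  have hne : d * Real.exp 1 ≠ 0 := mul_ne_zero hd0 (Real.exp_pos 1).ne'
  have e1 : (d : ℂ) * ee = ((d * Real.exp 1 : ℝ) : ℂ) := by rw [Complex.ofReal_mul]
  have h6 : b * (d : ℂ)⁻¹ * ((d : ℂ) * ee) = b * ee := by field_simp
  have h5 := bk2 hE exp_ppI (fun p q h => by
      rw [e1] at h
      exact real_pi hne p q h) ha (hb.mul (alg_ofReal hd).inv)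
    (hc.mul algI.neg) (by
      rw [h6]
      linear_combination h + (-c * pp) * Complex.I_mul_I)
  exact ⟨h5.1, (mul_eq_zero.1 h5.2.1).resolve_right (inv_ne_zero hdC),
    (mul_eq_zero.1 h5.2.2).resolve_right (neg_ne_zero.2 Complex.I_ne_zero)⟩

variable {g : ℝ} (hg : IsAlgebraic ℚ g) (hg0 : g ≠ 0) (hPe : ee * LL ∈ Lt)
  (hPp : IsAlgebraic ℚ (Complex.exp ((g : ℂ) * (pp * LL))))
include hg hg0 hPe hPp

/-- `log π` is not a linear form in logarithms -/
theorem LL_notMem : LL ∉ Lt := by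
  intro hL
  have hPm : pp * LL ∈ Lt := mem_of_exp (alg_ofReal hg) (Complex.ofReal_ne_zero.2 hg0) hPp
  refine strong_six ![1, LL] ![1, ee, pp] ?_ ?_ ?_
  · intro a b ha hb hab
    simp only [Matrix.cons_val_zero, Matrix.cons_val_one] at hab
    by_cases hb0 : b = 0
    · subst hb0
      exact ⟨by simpa using hab, rfl⟩
    · exfalso
      apply LL_tr hg hg0 hPp
      have : LL = -a * b⁻¹ := by
        field_simp
        linear_combination hab
      rw [this]
      exact ha.neg.mul hb.inv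
  · intro c hc hsum j
    rw [Fin.sum_univ_three] at hsum
    simp only [Matrix.cons_val_zero, Matrix.cons_val_one, Matrix.cons_val] at hsum
    have h5 := ind3 hd hd0 hE (hc 0) (hc 1) (hc 2) (by linear_combination hsum)
    fin_cases j
    · exact h5.1
    · exact h5.2.1
    · exact h5.2.2
  · intro i j
    fin_cases i
    · fin_cases j
      · change (1 : ℂ) * 1 ∈ Lt
        rw [mul_one]
        exact Lt_one
      · change (1 : ℂ) * ee ∈ Lt
        rw [one_mul]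
        exact ee_mem hd hd0 hE
      · change (1 : ℂ) * pp ∈ Lt
        rw [one_mul]
        exact pi_mem
    · fin_cases j
      · change LL * 1 ∈ Lt
        rw [mul_one]
        exact hL
      · change LL * ee ∈ Lt
        rw [mul_comm]
        exact hPe
      · change LL * pp ∈ Lt
        rw [mul_comm]
        exact hPm

/-- the main consequence -/
theorem alg_of_mem {y : ℂ} (hy : y ∈ Lt) (h1 : ee * y ∈ Lt) (h2 : pp * y ∈ Lt) :
    IsAlgebraic ℚ y := by
  by_contra hcon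
  have hLn := LL_notMem hd hd0 hE hg hg0 hPe hPp
  have hPm : pp * LL ∈ Lt := mem_of_exp (alg_ofReal hg) (Complex.ofReal_ne_zero.2 hg0) hPp
  refine strong_six ![ee, pp] ![LL, 1, y] ?_ ?_ ?_
  · intro a b ha hb hab
    simp only [Matrix.cons_val_zero, Matrix.cons_val_one] at hab
    exact (ind3 hd hd0 hE isAlgebraic_zero ha hb (by linear_combination hab)).2
  · intro c hc hsum j
    rw [Fin.sum_univ_three] at hsum
    simp only [Matrix.cons_val_zero, Matrix.cons_val_one, Matrix.cons_val] at hsum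
    have h0 : c 0 = 0 := by
      by_contra h0
      apply hLn
      have e : LL = (-(c 0)⁻¹ * c 1) * 1 + (-(c 0)⁻¹ * c 2) * y := by
        field_simp
        linear_combination hsum
      rw [e]
      exact Lt.add_mem (Lt_mul ((hc 0).inv.neg.mul (hc 1)) Lt_one)
        (Lt_mul ((hc 0).inv.neg.mul (hc 2)) hy)
    rw [h0] at hsum
    have h3 : c 2 = 0 := by
      by_contra h3
      apply hcon
      have e : y = -(c 1) * (c 2)⁻¹ := by
        field_simp
        linear_combination hsum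
      rw [e]
      exact (hc 1).neg.mul (hc 2).inv
    rw [h3] at hsum
    have h4 : c 1 = 0 := by linear_combination hsum
    fin_cases j
    · exact h0
    · exact h4
    · exact h3
  · intro i j
    fin_cases i
    · fin_cases j
      · exact hPe
      · change ee * 1 ∈ Lt
        rw [mul_one]
        exact ee_mem hd hd0 hE
      · exact h1
    · fin_cases j
      · exact hPm
      · change pp * 1 ∈ Lt
        rw [mul_one]
        exact pi_mem
      · exact h2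

end one

section two
variable {β : ℝ} (hβ : IsAlgebraic ℚ β) (hβ0 : β ≠ 0)
  (hB : IsAlgebraic ℚ (Complex.exp ((β : ℂ) * LL))) (hPp : pp * LL ∈ Lt)
include hβ hβ0 hB hPp

theorem span2 {y : ℂ} (hy : y ∈ Lt) (h2 : pp * y ∈ Lt) :
    ∃ b c : ℂ, IsAlgebraic ℚ b ∧ IsAlgebraic ℚ c ∧ y = b + c * ((β : ℂ) * LL) := by
  have hbC : IsAlgebraic ℚ (β : ℂ) := alg_ofReal hβ
  have hbC0 : (β : ℂ) ≠ 0 := Complex.ofReal_ne_zero.2 hβ0
  have hLm : LL ∈ Lt := mem_of_exp hbC hbC0 hB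
  obtain ⟨c, hc, ⟨j, hj⟩, hs⟩ := dep pp_tr' ![1, LL, y]
    (by
      intro j
      fin_cases j
      · exact Lt_one
      · exact hLm
      · exact hy)
    (by
      intro j
      fin_cases j
      · change pp * 1 ∈ Lt
        rw [mul_one]
        exact pi_mem
      · exact hPp
      · exact h2)
  simp only [Matrix.cons_val_zero, Matrix.cons_val_one, Matrix.cons_val] at hs
  by_cases h3 : c 2 = 0
  · exfalso
    rw [h3] at hs
    have h4 := bk1 hB (mul_ne_zero hbC0 LL_ne) (hc 0) ((hc 1).mul hbC.inv) (by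
      have e : c 1 * (β : ℂ)⁻¹ * ((β : ℂ) * LL) = c 1 * LL := by field_simp
      rw [e]
      linear_combination hs)
    have h5 : c 1 = 0 := (mul_eq_zero.1 h4.2).resolve_right (inv_ne_zero hbC0)
    fin_cases j
    · exact hj h4.1
    · exact hj h5
    · exact hj h3
  · refine ⟨-(c 2)⁻¹ * c 0, -(c 2)⁻¹ * c 1 * (β : ℂ)⁻¹, (hc 2).inv.neg.mul (hc 0),
      ((hc 2).inv.neg.mul (hc 1)).mul hbC.inv, ?_⟩
    field_simp
    linear_combination hs

/-- logarithms `l` with `exp (π l)` algebraic -/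
theorem rat_mul {l : ℂ} (h1 : IsAlgebraic ℚ (Complex.exp l)) (h2 : pp * l ∈ Lt) :
    ∃ s : ℚ, l = s * ((β : ℂ) * LL) := by
  have hbC0 : (β : ℂ) ≠ 0 := Complex.ofReal_ne_zero.2 hβ0
  obtain ⟨b, c, hb, hc, h3⟩ := span2 hβ hβ0 hB hPp (Lt_log h1) h2
  by_cases hli : ∀ p q : ℚ, (p : ℂ) * ((β : ℂ) * LL) + (q : ℂ) * l = 0 → p = 0 ∧ q = 0
  · exfalso
    have h5 := bk2 hB h1 hli hb hc isAlgebraic_one.neg (by linear_combination -h3)
    exact (neg_ne_zero.2 one_ne_zero) h5.2.2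
  · exact dep_two (mul_ne_zero hbC0 LL_ne) hli

theorem pi_sq_notMem : pp * pp ∉ Lt := by
  intro h
  obtain ⟨b, c, hb, hc, h3⟩ := span2 hβ hβ0 hB hPp pi_mem h
  have hL := hB
  have hxL : (β : ℂ) * LL = ((β * Real.log Real.pi : ℝ) : ℂ) := by
    rw [Complex.ofReal_mul]
  have hne : β * Real.log Real.pi ≠ 0 := mul_ne_zero hβ0 logpi_pos.ne'
  rw [hxL] at hL h3
  have h5 := bk2 hL exp_ppI (fun p q h => real_pi hne p q h) hb hc algI (by
    linear_combination -h3 + pp * Complex.I_mul_I)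
  exact Complex.I_ne_zero h5.2.2

end two

theorem cEE {d : ℝ} (h : IsAlgebraic ℚ (Real.exp 1 ^ (d * Real.exp 1))) :
    IsAlgebraic ℚ (Complex.exp ((d : ℂ) * ee)) := by
  have h1 : Complex.exp ((d : ℂ) * ee) = ((Real.exp 1 ^ (d * Real.exp 1) : ℝ) : ℂ) := by
    rw [← Complex.ofReal_mul, ← Complex.ofReal_exp, Real.exp_one_rpow]
  rw [h1]
  exact alg_ofReal h

theorem cPP {x : ℝ} (h : IsAlgebraic ℚ (Real.pi ^ x)) :
    IsAlgebraic ℚ (Complex.exp ((x : ℂ) * LL)) := by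
  have h1 : Complex.exp ((x : ℂ) * LL) = ((Real.pi ^ x : ℝ) : ℂ) := by
    rw [← Complex.ofReal_mul, ← Complex.ofReal_exp, Real.rpow_def_of_pos Real.pi_pos,
      mul_comm x]
  rw [h1]
  exact alg_ofReal h

theorem cPP2 {x y : ℝ} (h : IsAlgebraic ℚ (Real.pi ^ (x * y))) :
    IsAlgebraic ℚ (Complex.exp ((x : ℂ) * ((y : ℂ) * LL))) := by
  have := cPP h
  rwa [Complex.ofReal_mul, mul_assoc] at this

/-- a nonzero logarithm of an algebraic number is transcendental -/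
theorem log_tr {l : ℂ} (hl : l ≠ 0) (h : IsAlgebraic ℚ (Complex.exp l)) : Transcendental ℚ l := by
  intro h1
  exact one_ne_zero (bk1 h hl h1 isAlgebraic_one.neg (by ring) |>.2 |> neg_eq_zero.1)

theorem result :
    -- the numbers `π ^ e`, `e ^ e`, `π ^ π` (or algebraic powers of them) with further numbers
    (∀ γ₁ γ₂ γ₃ : ℝ, IsAlgebraic ℚ γ₁ → γ₁ ≠ 0 → IsAlgebraic ℚ γ₂ → γ₂ ≠ 0 →
      IsAlgebraic ℚ γ₃ → γ₃ ≠ 0 → IsAlgebraic ℚ (Real.pi ^ (γ₁ * Real.exp 1)) →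
      IsAlgebraic ℚ (Real.exp 1 ^ (γ₂ * Real.exp 1)) → IsAlgebraic ℚ (Real.pi ^ (γ₃ * Real.pi)) →
      (∀ β γ l : ℂ, IsAlgebraic ℚ β → β ≠ 0 → IsAlgebraic ℚ γ → γ ≠ 0 → l ≠ 0 →
        IsAlgebraic ℚ (Complex.exp l) →
        Transcendental ℚ (Complex.exp (β * ((Real.exp 1 : ℝ) * l))) ∨
          Transcendental ℚ (Complex.exp (γ * ((Real.pi : ℝ) * l)))) ∧
      (∀ β γ : ℂ, IsAlgebraic ℚ β → β ≠ 0 → IsAlgebraic ℚ γ → γ ≠ 0 →
        Transcendental ℚ (Complex.exp (β * ((Real.pi : ℝ) * (Real.exp 1 : ℝ)))) ∨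
          Transcendental ℚ (Complex.exp (γ * (Real.pi : ℝ) ^ 2))) ∧
      (∀ β γ δ : ℂ, IsAlgebraic ℚ β → β ≠ 0 → IsAlgebraic ℚ γ → IsAlgebraic ℚ δ →
        Transcendental ℚ (Complex.exp (β * (Real.log Real.pi : ℝ) + γ * (Real.pi : ℝ)
          + δ * (Real.exp 1 : ℝ))))) ∧
    -- the numbers `π + e`, `π ^ β` and `π ^ e` or `π ^ π` together with further numbers
    (∀ β γ₁ : ℝ, IsAlgebraic ℚ β → β ≠ 0 → IsAlgebraic ℚ γ₁ → γ₁ ≠ 0 →
      IsAlgebraic ℚ (Real.pi + Real.exp 1) → IsAlgebraic ℚ (Real.pi ^ β) →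
      (IsAlgebraic ℚ (Real.pi ^ (γ₁ * Real.exp 1)) ∨ IsAlgebraic ℚ (Real.pi ^ (γ₁ * Real.pi))) →
      (∀ γ l : ℂ, IsAlgebraic ℚ γ → γ ≠ 0 → IsAlgebraic ℚ (Complex.exp l) →
        (IsAlgebraic ℚ (Complex.exp (γ * ((Real.exp 1 : ℝ) * l))) ∨
          IsAlgebraic ℚ (Complex.exp (γ * ((Real.pi : ℝ) * l)))) →
        ∃ s : ℚ, l = (s : ℂ) * ((β : ℂ) * (Real.log Real.pi : ℝ))) ∧
      (∀ γ : ℂ, IsAlgebraic ℚ γ → γ ≠ 0 →
        Transcendental ℚ (Complex.exp (γ * (Real.pi : ℝ) ^ 2)) ∧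
        Transcendental ℚ (Complex.exp (γ * ((Real.pi : ℝ) * (Real.exp 1 : ℝ)))) ∧
        Transcendental ℚ (Complex.exp (γ * (Real.exp 1 : ℝ) ^ 2)))) ∧
    -- an unconditional instance
    (∀ n : ℕ, 2 ≤ n → Transcendental ℚ (Real.pi ^ Real.exp 1) ∨
      Transcendental ℚ (Real.exp 1 ^ Real.exp 1) ∨ Transcendental ℚ (Real.pi ^ Real.pi) ∨
      Transcendental ℚ ((n : ℝ) ^ Real.exp 1) ∨ Transcendental ℚ ((n : ℝ) ^ Real.pi)) := by
  have part1 : ∀ γ₁ γ₂ γ₃ : ℝ, IsAlgebraic ℚ γ₁ → γ₁ ≠ 0 → IsAlgebraic ℚ γ₂ → γ₂ ≠ 0 →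
      IsAlgebraic ℚ γ₃ → γ₃ ≠ 0 → IsAlgebraic ℚ (Real.pi ^ (γ₁ * Real.exp 1)) →
      IsAlgebraic ℚ (Real.exp 1 ^ (γ₂ * Real.exp 1)) → IsAlgebraic ℚ (Real.pi ^ (γ₃ * Real.pi)) →
      (∀ β γ l : ℂ, IsAlgebraic ℚ β → β ≠ 0 → IsAlgebraic ℚ γ → γ ≠ 0 → l ≠ 0 →
        IsAlgebraic ℚ (Complex.exp l) →
        Transcendental ℚ (Complex.exp (β * ((Real.exp 1 : ℝ) * l))) ∨
          Transcendental ℚ (Complex.exp (γ * ((Real.pi : ℝ) * l)))) ∧
      (∀ β γ : ℂ, IsAlgebraic ℚ β → β ≠ 0 → IsAlgebraic ℚ γ → γ ≠ 0 →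
        Transcendental ℚ (Complex.exp (β * ((Real.pi : ℝ) * (Real.exp 1 : ℝ)))) ∨
          Transcendental ℚ (Complex.exp (γ * (Real.pi : ℝ) ^ 2))) ∧
      (∀ β γ δ : ℂ, IsAlgebraic ℚ β → β ≠ 0 → IsAlgebraic ℚ γ → IsAlgebraic ℚ δ →
        Transcendental ℚ (Complex.exp (β * (Real.log Real.pi : ℝ) + γ * (Real.pi : ℝ)
          + δ * (Real.exp 1 : ℝ)))) := by
    intro γ₁ γ₂ γ₃ hg1 hg10 hg2 hg20 hg3 hg30 h1 h2 h3
    have hE := cEE h2
    have hPe : ee * LL ∈ Lt :=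
      mem_of_exp (alg_ofReal hg1) (Complex.ofReal_ne_zero.2 hg10) (cPP2 h1)
    have hPp : IsAlgebraic ℚ (Complex.exp ((γ₃ : ℂ) * (pp * LL))) := cPP2 h3
    refine ⟨?_, ?_, ?_⟩
    · intro β γ l hβ hβ0 hγ hγ0 hl h4
      by_contra hcon
      simp only [not_or, Transcendental, not_not] at hcon
      exact log_tr hl h4 (alg_of_mem hg2 hg20 hE hg3 hg30 hPe hPp (Lt_log h4)
        (mem_of_exp hβ hβ0 hcon.1) (mem_of_exp hγ hγ0 hcon.2))
    · intro β γ hβ hβ0 hγ hγ0
      by_contra hcon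
      simp only [not_or, Transcendental, not_not] at hcon
      have h5 : pp * pp ∈ Lt := by
        have := mem_of_exp hγ hγ0 hcon.2
        rwa [sq] at this
      have h6 : ee * pp ∈ Lt := by
        rw [mul_comm]
        exact mem_of_exp hβ hβ0 hcon.1
      exact pp_tr' (alg_of_mem hg2 hg20 hE hg3 hg30 hPe hPp pi_mem h6 h5)
    · intro β γ δ hβ hβ0 hγ hδ hcon
      apply LL_notMem hg2 hg20 hE hg3 hg30 hPe hPp
      have h5 : β * LL + γ * pp + δ * ee ∈ Lt := Lt_log hcon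
      have h6 := Lt.sub_mem (Lt.sub_mem h5 (Lt_mul hγ pi_mem))
        (Lt_mul hδ (ee_mem hg2 hg20 hE))
      have h7 : β * LL + γ * pp + δ * ee - γ * pp - δ * ee = β * LL := by ring
      rw [h7] at h6
      have h8 := Lt_mul hβ.inv h6
      rwa [inv_mul_cancel_left₀ hβ0] at h8
  refine ⟨part1, ?_, ?_⟩
  · intro β γ₁ hβ hβ0 hg1 hg10 h0 hB h1
    have ha : IsAlgebraic ℚ ((Real.pi + Real.exp 1 : ℝ) : ℂ) := alg_ofReal h0
    have hsum : ((Real.pi + Real.exp 1 : ℝ) : ℂ) = pp + ee := by rw [Complex.ofReal_add]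
    have hBB : IsAlgebraic ℚ (Complex.exp ((β : ℂ) * LL)) := cPP hB
    have hLm : LL ∈ Lt := mem_of_exp (alg_ofReal hβ) (Complex.ofReal_ne_zero.2 hβ0) hBB
    have tr : ∀ y ∈ Lt, ee * y ∈ Lt → pp * y ∈ Lt := by
      intro y hy h
      have h6 := Lt.sub_mem (Lt_mul ha hy) h
      have h7 : ((Real.pi + Real.exp 1 : ℝ) : ℂ) * y - ee * y = pp * y := by
        rw [hsum]; ring
      rwa [h7] at h6
    have hPp : pp * LL ∈ Lt := by
      rcases h1 with h1 | h1
      · exact tr _ hLm (mem_of_exp (alg_ofReal hg1) (Complex.ofReal_ne_zero.2 hg10) (cPP2 h1))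
      · exact mem_of_exp (alg_ofReal hg1) (Complex.ofReal_ne_zero.2 hg10) (cPP2 h1)
    refine ⟨?_, ?_⟩
    · intro γ l hγ hγ0 h4 h5
      refine rat_mul hβ hβ0 hBB hPp h4 ?_
      rcases h5 with h5 | h5
      · exact tr _ (Lt_log h4) (mem_of_exp hγ hγ0 h5)
      · exact mem_of_exp hγ hγ0 h5
    · intro γ hγ hγ0
      have hno := pi_sq_notMem hβ hβ0 hBB hPp
      have hapi : ((Real.pi + Real.exp 1 : ℝ) : ℂ) * pp ∈ Lt := Lt_mul ha pi_mem
      refine ⟨?_, ?_, ?_⟩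
      · intro h5
        apply hno
        have := mem_of_exp hγ hγ0 h5
        rwa [sq] at this
      · intro h5
        apply hno
        have h6 := Lt.sub_mem hapi (mem_of_exp hγ hγ0 h5)
        have h7 : ((Real.pi + Real.exp 1 : ℝ) : ℂ) * pp - pp * ee = pp * pp := by
          rw [hsum]; ring
        rwa [h7] at h6
      · intro h5
        apply hno
        have h6 := mem_of_exp hγ hγ0 h5
        have h8 := Lt.add_mem (Lt.sub_mem h6 (Lt_mul ha (Lt_alg ha)))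
          (Lt_mul (isAlgebraic_one.add isAlgebraic_one) hapi)
        have h7 : ((Real.exp 1 : ℝ) : ℂ) ^ 2 - ((Real.pi + Real.exp 1 : ℝ) : ℂ) *
            ((Real.pi + Real.exp 1 : ℝ) : ℂ) + (1 + 1) * (((Real.pi + Real.exp 1 : ℝ) : ℂ) * pp) =
            pp * pp := by
          rw [hsum]; ring
        rwa [h7] at h8
  · intro n hn
    by_contra hcon
    simp only [not_or, Transcendental, not_not] at hcon
    obtain ⟨h1, h2, h3, h4, h5⟩ := hcon
    have hn0 : (0 : ℝ) < n := by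
      have : 0 < n := by omega
      exact_mod_cast this
    have hl : ((Real.log n : ℝ) : ℂ) ≠ 0 := by
      refine Complex.ofReal_ne_zero.2 (Real.log_pos ?_).ne'
      exact_mod_cast (by omega : 1 < n)
    have hlog : IsAlgebraic ℚ (Complex.exp ((Real.log n : ℝ) : ℂ)) := by
      rw [← Complex.ofReal_exp, Real.exp_log hn0, Complex.ofReal_natCast]
      exact isAlgebraic_natCast n
    have hrp : ∀ b : ℝ, IsAlgebraic ℚ ((n : ℝ) ^ b) →
        IsAlgebraic ℚ (Complex.exp (1 * ((b : ℂ) * ((Real.log n : ℝ) : ℂ)))) := by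
      intro b hb
      have e : Complex.exp (1 * ((b : ℂ) * ((Real.log n : ℝ) : ℂ))) = (((n : ℝ) ^ b : ℝ) : ℂ) := by
        rw [one_mul, ← Complex.ofReal_mul, ← Complex.ofReal_exp, Real.rpow_def_of_pos hn0,
          mul_comm b]
      rw [e]
      exact alg_ofReal hb
    rcases (part1 1 1 1 isAlgebraic_one one_ne_zero isAlgebraic_one one_ne_zero isAlgebraic_one
      one_ne_zero (by rwa [one_mul]) (by rwa [one_mul]) (by rwa [one_mul])).1 1 1 _
      isAlgebraic_one one_ne_zero isAlgebraic_one one_ne_zero hl hlog with h | h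
    · exact h (hrp _ h4)
    · exact h (hrp _ h5)

end Pool.Agent.Results.MP_a49cf6_nt.ExceptionalCases
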