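import Pool.Agent.H137R3.EP.Towers

/-!
The numbers `e ^ (e ^ k)`, `π ^ (π ^ k)`, `π ^ (e ^ k)`: almost all of them are transcendental, and
`e ^ P(e)`, `π ^ P(π)`, `π ^ P(e)` are transcendental for all nonzero polynomials `P` with algebraic
coefficients whose monomials belong to a set containing about half of the exponents.
-/

set_option autoImplicit false

namespace Pool.Agent.Results.MP_a49cf6_nt.PowerTowers

open Real

/-- In every window `M < k ≤ M + N` of exponents: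
(a) a set of exponents `k` for which some `exp (a ξ θ ^ k)`, `a ≠ 0` algebraic, is algebraic has
at most `1 / 2 + √(4 N - 15 / 4)` elements;
(b) a set `I` of at least `(N - 3) / 2` exponents is such that the numbers `ξ θ ^ i`, `i ∈ I`,
together with `1` and arbitrary `ℚ`-independent logarithms of algebraic numbers, are linearly
independent over the algebraic numbers, and `exp (∑ c i ξ θ ^ i)` is transcendental for all
algebraic `c i`, not all zero. -/
def Window (ξ θ : ℂ) : Prop :=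
  ∀ M N : ℕ,
    (∀ S : Finset ℕ, S ⊆ Finset.Icc (M + 1) (M + N) →
      (∀ k ∈ S, ∃ a : ℂ, IsAlgebraic ℚ a ∧ a ≠ 0 ∧
        IsAlgebraic ℚ (Complex.exp (a * (ξ * θ ^ k)))) →
      S.card * S.card ≤ S.card + 4 * (N - 1)) ∧
    ∃ I : Finset ℕ, I ⊆ Finset.Icc (M + 1) (M + N) ∧ N ≤ 2 * I.card + 3 ∧
      (∀ (m : ℕ) (ω : Fin m → ℂ), (∀ j, IsAlgebraic ℚ (Complex.exp (ω j))) →
        LinearIndependent ℚ ω → ∀ (c₀ : ℂ) (c : ℕ → ℂ) (d : Fin m → ℂ), IsAlgebraic ℚ c₀ →
          (∀ i, IsAlgebraic ℚ (c i)) → (∀ j, IsAlgebraic ℚ (d j)) →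
          c₀ + ∑ i ∈ I, c i * (ξ * θ ^ i) + ∑ j, d j * ω j = 0 →
          c₀ = 0 ∧ (∀ i ∈ I, c i = 0) ∧ ∀ j, d j = 0) ∧
      (∀ c : ℕ → ℂ, (∀ i, IsAlgebraic ℚ (c i)) → (∃ i ∈ I, c i ≠ 0) →
        Transcendental ℚ (Complex.exp (∑ i ∈ I, c i * (ξ * θ ^ i))))

theorem window_all (ξ θ : ℂ) (hξ : ξ ≠ 0) (hθ : Transcendental ℚ θ) : Window ξ θ := by
  intro M N
  constructor
  · intro S hS h
    refine Pool.Agent.H137R3.EP.window hξ hθ M N S hS ?_
    intro k hk
    obtain ⟨a, ha, ha0, h1⟩ := h k hk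
    exact Pool.Agent.H137R3.EP.mem_of_exp ha ha0 h1
  · obtain ⟨I, h1, h2, h3⟩ := Pool.Agent.H137R3.EP.window_rank hξ hθ M N
    refine ⟨I, h1, h2, h3, ?_⟩
    rintro c hc ⟨i, hi, hci⟩ halg
    by_cases h0 : ∑ i ∈ I, c i * (ξ * θ ^ i) = 0
    · have := (h3 0 ![] (fun j => j.elim0) linearIndependent_empty_type 0 c ![] isAlgebraic_zero hc
        (fun j => j.elim0) (by simpa using h0)).2.1 i hi
      exact hci this
    · have := (h3 1 ![∑ i ∈ I, c i * (ξ * θ ^ i)] (by
          intro j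
          fin_cases j
          exact halg) (by
          rw [linearIndependent_unique_iff]
          exact h0) 0 c ![-1] isAlgebraic_zero hc (by
          intro j
          fin_cases j
          exact isAlgebraic_one.neg) (by simp)).2.1 i hi
      exact hci this

/-- `Window ξ θ` holds for all `ξ ≠ 0` and transcendental `θ`; in particular at most
`1 / 2 + √(4 N - 15 / 4)` of the numbers `e ^ (e ^ k)`, `1 ≤ k ≤ N`, are algebraic, and the same
holds for `π ^ (π ^ k)`, for `π ^ (e ^ k)` and for `e ^ (π ^ k)`. -/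
theorem result :
    (∀ ξ θ : ℂ, ξ ≠ 0 → Transcendental ℚ θ → Window ξ θ) ∧
    (∀ x : ℝ, (x = exp 1 ∨ x = π) → ∀ y : ℝ, (y = exp 1 ∨ y = π) → ∀ (N : ℕ) (S : Finset ℕ),
      S ⊆ Finset.Icc 1 N → (∀ k ∈ S, IsAlgebraic ℚ (x ^ (y ^ k))) →
      S.card * S.card ≤ S.card + 4 * (N - 1)) := by
  refine ⟨window_all, ?_⟩
  intro x hx y hy N S hS h
  have hx0 : 0 < x := by
    rcases hx with rfl | rfl
    · exact exp_pos 1
    · exact pi_pos
  have hx1 : x ≠ 1 := by
    rcases hx with rfl | rfl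
    · exact (one_lt_exp_iff.2 one_pos).ne'
    · linarith [pi_gt_three]
  have hy' : Transcendental ℚ (y : ℂ) := by
    rcases hy with rfl | rfl
    · have h1 := Pool.Agent.H137R3.EP.e_tr
      have h2 : ((exp 1 : ℝ) : ℂ) = Complex.exp 1 := by simp
      rw [h2]
      exact h1
    · exact Pool.Agent.H137R3.EP.pi_tr
  have hl : ((log x : ℝ) : ℂ) ≠ 0 := by
    exact_mod_cast log_ne_zero_of_pos_of_ne_one hx0 hx1
  refine ((window_all ((log x : ℝ) : ℂ) (y : ℂ) hl hy') 0 N).1 S (by simpa using hS) ?_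
  intro k hk
  refine ⟨1, isAlgebraic_one, one_ne_zero, ?_⟩
  have h1 : Complex.exp (1 * (((log x : ℝ) : ℂ) * (y : ℂ) ^ k)) = ((x ^ (y ^ k) : ℝ) : ℂ) := by
    rw [rpow_def_of_pos hx0, Complex.ofReal_exp]
    push_cast
    ring_nf
  rw [h1]
  exact (h k hk).algebraMap (A := ℂ)

end Pool.Agent.Results.MP_a49cf6_nt.PowerTowers
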