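import Pool.Agent.Results.MP_a49cf6_nt.ThreeTranscendental

/-!
At least three of the five numbers `π + e`, `π e`, `π ^ e`, `e ^ e`, `π ^ π` are irrational,
unless `π ^ e`, `e ^ e`, `π ^ π` are all rational and `π + e`, `π e` are transcendental.
-/

set_option autoImplicit false

namespace Pool.Agent.Results.MP_a49cf6_nt.ThreeIrrational

/-- **At least three of the five numbers are irrational**, unless `π ^ e`, `e ^ e`, `π ^ π` are
all rational, in which case `π + e` and `π e` are transcendental. -/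
theorem result :
    (∃ s : Finset (Fin 5), s.card = 3 ∧ ∀ i ∈ s, Irrational ((![Real.pi + Real.exp 1,
      Real.pi * Real.exp 1, Real.pi ^ Real.exp 1, Real.exp 1 ^ Real.exp 1,
      Real.pi ^ Real.pi] : Fin 5 → ℝ) i)) ∨
    (Transcendental ℚ (Real.pi + Real.exp 1) ∧ Transcendental ℚ (Real.pi * Real.exp 1) ∧
      ¬ Irrational (Real.pi ^ Real.exp 1) ∧ ¬ Irrational (Real.exp 1 ^ Real.exp 1) ∧
      ¬ Irrational (Real.pi ^ Real.pi)) := by
  classical
  have mk : ∀ i j k : Fin 5, ({i, j, k} : Finset (Fin 5)).card = 3 →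
      Irrational ((![Real.pi + Real.exp 1, Real.pi * Real.exp 1, Real.pi ^ Real.exp 1,
        Real.exp 1 ^ Real.exp 1, Real.pi ^ Real.pi] : Fin 5 → ℝ) i) →
      Irrational ((![Real.pi + Real.exp 1, Real.pi * Real.exp 1, Real.pi ^ Real.exp 1,
        Real.exp 1 ^ Real.exp 1, Real.pi ^ Real.pi] : Fin 5 → ℝ) j) →
      Irrational ((![Real.pi + Real.exp 1, Real.pi * Real.exp 1, Real.pi ^ Real.exp 1,
        Real.exp 1 ^ Real.exp 1, Real.pi ^ Real.pi] : Fin 5 → ℝ) k) →
      ∃ s : Finset (Fin 5), s.card = 3 ∧ ∀ i ∈ s, Irrational ((![Real.pi + Real.exp 1,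
        Real.pi * Real.exp 1, Real.pi ^ Real.exp 1, Real.exp 1 ^ Real.exp 1,
        Real.pi ^ Real.pi] : Fin 5 → ℝ) i) := by
    intro i j k hc hi hj hk
    refine ⟨{i, j, k}, hc, ?_⟩
    intro l hl
    rw [Finset.mem_insert, Finset.mem_insert, Finset.mem_singleton] at hl
    rcases hl with rfl | rfl | rfl
    · exact hi
    · exact hj
    · exact hk
  rcases Pool.Agent.Results.MP_a49cf6_nt.ThreeTranscendental.result with
    ⟨s, hs, h⟩ | ⟨ha, hb, hc, hd, hf⟩ | ⟨ha, hb, hc, hd, hf⟩
  · exact Or.inl ⟨s, hs, fun i hi => (h i hi).irrational⟩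
  · by_cases h2 : Irrational (Real.pi ^ Real.exp 1)
    · exact Or.inl (mk 0 1 2 (by decide) ha.irrational hb.irrational h2)
    · by_cases h3 : Irrational (Real.exp 1 ^ Real.exp 1)
      · exact Or.inl (mk 0 1 3 (by decide) ha.irrational hb.irrational h3)
      · by_cases h4 : Irrational (Real.pi ^ Real.pi)
        · exact Or.inl (mk 0 1 4 (by decide) ha.irrational hb.irrational h4)
        · exact Or.inr ⟨ha, hb, h2, h3, h4⟩
  · have h0 : Irrational (Real.pi + Real.exp 1) := by
      by_contra h0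
      exact Pool.Agent.H364R2.PiE.sum_pow h0 hc hf
    exact Or.inl (mk 0 1 3 (by decide) h0 hb.irrational hd.irrational)

end Pool.Agent.Results.MP_a49cf6_nt.ThreeIrrational
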